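-- The Amir-Lindenstrauss theorem in both directions: a compact space is homeomorphic to a weakly compact
-- subset of a Banach space if and only if it has a continuous injection into some c₀(Γ) with the
-- pointwise topology.
import Pool.Agent.Lib_MP_8e7252_gt.Approx
import Pool.Agent.Lib_MP_8e7252_gt.Induct

set_option autoImplicit false

namespace Pool.Agent.Lib_MP_8e7252_gt

open Set Topology Filter Cardinal

section Compact

variable {X : Type} {Γ : Type} (e : X → Γ → ℝ)

lemma Lv_compact_of_range (hK : IsCompact (range fun γ => fun x => e x γ)) :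
    ∀ k, IsCompact (Lv e k) := by
  intro k
  induction k with
  | zero => exact (hK.insert _).insert _
  | succ k ih =>
    refine IsCompact.union ?_ ?_
    · refine IsCompact.image ((isCompact_Icc.prod isCompact_Icc).prod (ih.prod ih)) ?_
      fun_prop
    · exact IsCompact.image (ih.prod ih) (by fun_prop)

/-- A compact space with a pointwise compact separating set of continuous functions has a system in the
sense of `Sys`. -/
theorem exists_H_of_range [TopologicalSpace X] [CompactSpace X]
    (hc : Continuous e) (hinj : Function.Injective e)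
    (hK : IsCompact (range fun γ => fun x => e x γ)) (ε : ℝ) (hε : 0 < ε) :
    ∃ H : ℕ → Set (X → ℝ), (∀ h : X → ℝ, Continuous h → ∃ n, h ∈ H n) ∧ (∀ n, IsCompact (H n)) ∧
      ∀ n, ∀ φ ∈ H n, ∀ z, ∀ᶠ y in 𝓝 z, |φ y - φ z| < ε := by
  refine ⟨fun n => {φ | ∃ f ∈ Lv e n, ∀ x, |φ x - f x| ≤ ε / 4}, ?_, ?_, ?_⟩
  · intro h hh
    obtain ⟨k, u, hu, hux⟩ := exists_Lv_approx e hc hinj h hh (ε / 4) (by positivity)
    refine ⟨k, u, hu, fun x => ?_⟩
    rw [abs_sub_comm]
    exact (hux x).le
  · intro n
    have hK := Lv_compact_of_range e hK n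
    have hcomp : IsCompact (Set.pi Set.univ fun _ : X => Icc (-(ε / 4)) (ε / 4)) :=
      isCompact_univ_pi fun z => isCompact_Icc
    have h1 := (hK.prod hcomp).image (f := fun q : (X → ℝ) × (X → ℝ) => q.1 + q.2) (by fun_prop)
    convert! h1 using 1
    ext φ
    constructor
    · rintro ⟨f, hf, hx⟩
      refine ⟨(f, φ - f), ⟨hf, fun x _ => ?_⟩, ?_⟩
      · exact abs_le.1 (hx x)
      · simp
    · rintro ⟨⟨f, u⟩, ⟨hf, hu⟩, rfl⟩
      refine ⟨f, hf, fun x => ?_⟩
      have h2 := hu x (mem_univ x)
      simp only [Pi.add_apply, add_sub_cancel_left]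
      exact abs_le.2 h2
  · rintro n φ ⟨f, hf, hφ⟩ z
    have hfc := Lv_continuous e hc n f hf
    have h3 : ∀ᶠ t in 𝓝 z, |f t - f z| < ε / 4 := by
      have := hfc.continuousAt.eventually (Metric.ball_mem_nhds (f z) (show (0 : ℝ) < ε / 4 by positivity))
      filter_upwards [this] with t ht
      simpa [Real.dist_eq] using ht
    filter_upwards [h3] with t ht
    have h5 := abs_le.1 (hφ t)
    have h6 := abs_le.1 (hφ z)
    rw [abs_lt] at ht ⊢
    constructor <;> linarith [h5.1, h5.2, h6.1, h6.2, ht.1, ht.2]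

/-- A compact Hausdorff space with a pointwise compact separating set of continuous functions embeds in
some `c₀(Γ)`. -/
theorem c0_of_range [TopologicalSpace X] [CompactSpace X] [T2Space X]
    (hc : Continuous e) (hinj : Function.Injective e)
    (hK : IsCompact (range fun γ => fun x => e x γ)) :
    ∃ (Γ : Type) (g : X → Γ → ℝ), Continuous g ∧ Function.Injective g ∧ (∀ z γ, |g z γ| ≤ 1) ∧
    ∀ z, ∀ ε : ℝ, 0 < ε → {γ : Γ | ε < |g z γ|}.Finite := by
  choose H hH1 hH2 hH3 using fun m : ℕ =>
    exists_H_of_range e hc hinj hK (1 / ((m : ℝ) + 1)) (by positivity)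
  have hsys : Sys (fun n m => H m n) :=
    ⟨fun m h hh => hH1 m h hh, fun n m => hH2 m n, fun n m => hH3 m n⟩
  exact eberlein_of_sys hsys

end Compact

section Weak

variable {E : Type} [NormedAddCommGroup E] [NormedSpace ℝ E]

/-- Amir and Lindenstrauss: a compact space which is continuously embedded in a normed space with its
weak topology embeds in some `c₀(Γ)`. -/
theorem c0_of_weak {X : Type} [TopologicalSpace X] [CompactSpace X] [T2Space X]
    (w : X → WeakSpace ℝ E) (hw : Continuous w) (hi : Function.Injective w) :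
    ∃ (Γ : Type) (g : X → Γ → ℝ), Continuous g ∧ Function.Injective g ∧ (∀ z γ, |g z γ| ≤ 1) ∧
    ∀ z, ∀ ε : ℝ, 0 < ε → {γ : Γ | ε < |g z γ|}.Finite := by
  let B : Set (WeakDual ℝ E) := WeakDual.toStrongDual ⁻¹' Metric.closedBall (0 : StrongDual ℝ E) 1
  have hB : IsCompact B := WeakDual.isCompact_closedBall (𝕜 := ℝ) (E := E) 0 1
  have : CompactSpace B := isCompact_iff_compactSpace.1 hB
  let e : X → B → ℝ := fun x f => (f : WeakDual ℝ E) ((toWeakSpace ℝ E).symm (w x))
  have hev : ∀ f : StrongDual ℝ E, Continuous fun x => f ((toWeakSpace ℝ E).symm (w x)) := by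
    intro f
    exact (WeakBilin.eval_continuous (topDualPairing ℝ E).flip f).comp hw
  refine c0_of_range e (continuous_pi fun f => hev _) ?_ ?_
  · intro x y hxy
    by_contra hne
    have h1 : (toWeakSpace ℝ E).symm (w x) - (toWeakSpace ℝ E).symm (w y) ≠ 0 := by
      intro h
      exact hne (hi ((toWeakSpace ℝ E).symm.injective (sub_eq_zero.1 h)))
    obtain ⟨f, hf1, hf2⟩ := exists_dual_vector ℝ _ (norm_ne_zero_iff.2 h1)
    have h2 := congrFun hxy (⟨StrongDual.toWeakDual f, by
      simp only [B, mem_preimage, Metric.mem_closedBall, dist_zero_right]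
      exact hf1.le⟩ : B)
    have h3 : f ((toWeakSpace ℝ E).symm (w x)) = f ((toWeakSpace ℝ E).symm (w y)) := h2
    rw [map_sub, h3, sub_self] at hf2
    have h4 := norm_ne_zero_iff.2 h1
    exact h4 (by simpa using hf2.symm)
  · refine isCompact_range (continuous_pi fun x => ?_)
    exact (WeakDual.eval_continuous _).comp continuous_subtype_val

end Weak

section C0

open scoped ZeroAtInfty

variable {Γ : Type} [TopologicalSpace Γ] [DiscreteTopology Γ]

omit [DiscreteTopology Γ] in
lemma c0_norm_le (f : C₀(Γ, ℝ)) (C : ℝ) (hC : 0 ≤ C) (h : ∀ γ, |f γ| ≤ C) : ‖f‖ ≤ C := by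
  rw [← ZeroAtInftyContinuousMap.norm_toBCF_eq_norm]
  exact (BoundedContinuousFunction.norm_le hC).2 fun γ => by
    rw [Real.norm_eq_abs]
    exact h γ

open Classical in
/-- the unit vectors of `c₀(Γ)` -/
noncomputable def dl (γ : Γ) : C₀(Γ, ℝ) :=
  ⟨⟨Pi.single γ 1, continuous_of_discreteTopology⟩, by
    rw [Filter.cocompact_eq_cofinite]
    refine tendsto_nhds_of_eventually_eq ?_
    rw [Filter.eventually_cofinite]
    refine (Set.finite_singleton γ).subset fun x hx => ?_
    by_contra hne
    exact hx (Pi.single_eq_of_ne hne _)⟩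

open Classical in
lemma dl_apply (γ x : Γ) : dl γ x = if x = γ then 1 else 0 := by
  change (Pi.single γ (1 : ℝ) : Γ → ℝ) x = _
  rw [Pi.single_apply]

open Classical in
lemma sum_dl_apply (F : Finset Γ) (c : Γ → ℝ) (x : Γ) :
    (∑ γ ∈ F, c γ • dl γ : C₀(Γ, ℝ)) x = if x ∈ F then c x else 0 := by
  induction F using Finset.induction_on with
  | empty => simp
  | insert a F ha ih =>
    rw [Finset.sum_insert ha, ZeroAtInftyContinuousMap.add_apply, ih,
      ZeroAtInftyContinuousMap.smul_apply, dl_apply]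
    by_cases h1 : x = a
    · subst h1
      simp [ha]
    · simp [h1]

lemma hasSum_dl (f : C₀(Γ, ℝ)) : HasSum (fun γ => f γ • dl γ) f := by
  classical
  rw [HasSum, SummationFilter.unconditional_filter, Metric.tendsto_nhds]
  intro ε hε
  have h1 := f.zero_at_infty'
  rw [Filter.cocompact_eq_cofinite, Metric.tendsto_nhds] at h1
  have h2 := Filter.eventually_cofinite.1 (h1 (ε / 2) (by positivity))
  filter_upwards [Filter.eventually_ge_atTop h2.toFinset] with F hF
  rw [dist_eq_norm]
  refine lt_of_le_of_lt (c0_norm_le _ (ε / 2) (by positivity) fun γ => ?_) (by linarith)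
  rw [ZeroAtInftyContinuousMap.sub_apply, sum_dl_apply]
  by_cases hγ : γ ∈ F
  · simp only [hγ, if_true, sub_self, abs_zero]
    positivity
  · simp only [hγ, if_false, zero_sub, abs_neg]
    by_contra hcon
    refine hγ (hF (h2.mem_toFinset.2 ?_))
    intro h3
    rw [dist_zero_right, Real.norm_eq_abs] at h3
    exact hcon h3.le

lemma summable_dual (φ : StrongDual ℝ C₀(Γ, ℝ)) : Summable fun γ => |φ (dl γ)| := by
  classical
  refine summable_of_sum_le (c := ‖φ‖) (fun γ => abs_nonneg _) fun F => ?_
  have h1 : ∑ γ ∈ F, |φ (dl γ)| = φ (∑ γ ∈ F, (SignType.sign (φ (dl γ)) : ℝ) • dl γ) := by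
    rw [map_sum]
    refine Finset.sum_congr rfl fun γ _ => ?_
    rw [map_smul, smul_eq_mul, sign_mul_self]
  rw [h1]
  refine (le_abs_self _).trans ((φ.le_opNorm _).trans ?_)
  refine mul_le_of_le_one_right (norm_nonneg _) (c0_norm_le _ 1 zero_le_one fun x => ?_)
  rw [sum_dl_apply]
  split_ifs
  · rcases lt_trichotomy (φ (dl x)) 0 with h | h | h
    · simp [sign_neg h]
    · simp [h]
    · simp [sign_pos h]
  · simp

/-- A continuous bounded map into `c₀(Γ)` with the pointwise topology is weakly continuous; in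
particular a compact space which embeds in the former embeds in a Banach space with the weak
topology. -/
theorem weak_of_c0 {Z Γ : Type} [TopologicalSpace Z] (g : Z → Γ → ℝ) (hc : Continuous g)
    (hi : Function.Injective g) (hb : ∀ z γ, |g z γ| ≤ 1)
    (h0 : ∀ z, ∀ ε : ℝ, 0 < ε → {γ : Γ | ε < |g z γ|}.Finite) :
    ∃ (E : Type) (_ : NormedAddCommGroup E) (_ : NormedSpace ℝ E) (_ : CompleteSpace E)
      (w : Z → WeakSpace ℝ E), Continuous w ∧ Function.Injective w := by
  let _ : TopologicalSpace Γ := ⊥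
  have : DiscreteTopology Γ := ⟨rfl⟩
  let G : Z → C₀(Γ, ℝ) := fun z => ⟨⟨g z, continuous_of_discreteTopology⟩, by
    rw [Filter.cocompact_eq_cofinite, Metric.tendsto_nhds]
    intro ε hε
    rw [Filter.eventually_cofinite]
    refine (h0 z (ε / 2) (by positivity)).subset fun γ hγ => ?_
    simp only [dist_zero_right, Real.norm_eq_abs, not_lt, mem_ofPred_eq] at hγ ⊢
    change ε ≤ |g z γ| at hγ
    linarith⟩
  have hG : ∀ z γ, G z γ = g z γ := fun z γ => rfl
  refine ⟨C₀(Γ, ℝ), inferInstance, inferInstance, inferInstance, fun z => toWeakSpace ℝ _ (G z),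
    WeakBilin.continuous_of_continuous_eval _ fun φ => ?_, ?_⟩
  · change Continuous fun z => (φ : StrongDual ℝ C₀(Γ, ℝ)) (G z)
    have h1 : ∀ z, (φ : StrongDual ℝ C₀(Γ, ℝ)) (G z) = ∑' γ, g z γ * φ (dl γ) := by
      intro z
      have h2 := (φ : StrongDual ℝ C₀(Γ, ℝ)).hasSum (hasSum_dl (G z))
      simp only [map_smul, smul_eq_mul, hG] at h2
      exact h2.tsum_eq.symm
    simp only [h1]
    refine continuous_tsum (fun γ => ?_) (summable_dual φ) fun γ z => ?_
    · exact ((continuous_apply γ).comp hc).mul continuous_const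
    · rw [Real.norm_eq_abs, abs_mul]
      exact mul_le_of_le_one_left (abs_nonneg _) (hb z γ)
  · intro x y hxy
    have h1 : G x = G y := (toWeakSpace ℝ _).injective hxy
    refine hi (funext fun γ => ?_)
    rw [← hG, ← hG, h1]

end C0

end Pool.Agent.Lib_MP_8e7252_gt
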