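import Mathlib

set_option autoImplicit false

namespace Pool.Agent.Lib_MP_8e7252_gt

open Set Topology Filter Cardinal

section Hull

variable {S : Type} (op : Finset S → Set S)

/-- sets closed under the (countably many valued) finitary operation `op` -/
def IsCl (E : Set S) : Prop := ∀ F : Finset S, (F : Set S) ⊆ E → op F ⊆ E

/-- the closed hull -/
def hull (E : Set S) : Set S := ⋂₀ {T | E ⊆ T ∧ IsCl op T}

lemma subset_hull (E : Set S) : E ⊆ hull op E := subset_sInter fun _ hT => hT.1

lemma isCl_hull (E : Set S) : IsCl op (hull op E) := by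
  intro F hF
  refine subset_sInter fun T hT => ?_
  exact hT.2 F (hF.trans (sInter_subset_of_mem hT))

lemma hull_min {E T : Set S} (h : E ⊆ T) (hT : IsCl op T) : hull op E ⊆ T :=
  sInter_subset_of_mem ⟨h, hT⟩

lemma hull_mono {E E' : Set S} (h : E ⊆ E') : hull op E ⊆ hull op E' :=
  hull_min op (h.trans (subset_hull op E')) (isCl_hull op E')

lemma isCl_directed_union {ι : Type} [Nonempty ι] (E : ι → Set S) (hdir : Directed (· ⊆ ·) E)
    (h : ∀ i, IsCl op (E i)) : IsCl op (⋃ i, E i) := by
  classical
  intro F hF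
  have : ∃ i, (F : Set S) ⊆ E i := by
    induction F using Finset.induction_on with
    | empty => exact ⟨Classical.arbitrary ι, by simp⟩
    | insert a F _ ih =>
      obtain ⟨i, hi⟩ := ih (by
        intro x hx
        exact hF (by simp only [Finset.coe_insert]; exact mem_insert_of_mem _ hx))
      obtain ⟨j, hj⟩ := mem_iUnion.1 (hF (show a ∈ ((insert a F : Finset S) : Set S) by simp))
      obtain ⟨k, hik, hjk⟩ := hdir i j
      refine ⟨k, ?_⟩
      intro x hx
      rcases Finset.mem_insert.1 hx with rfl | hx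
      · exact hjk hj
      · exact hik (hi hx)
  obtain ⟨i, hi⟩ := this
  exact (h i F hi).trans (subset_iUnion E i)

/-- one closing-off step -/
def stp (E : Set S) : Set S := E ∪ ⋃ F ∈ {F : Finset S | (F : Set S) ⊆ E}, op F

lemma card_finset_subset_le (E : Set S) (κ : Cardinal) (hκ : ℵ₀ ≤ κ) (hE : #E ≤ κ) :
    #{F : Finset S | (F : Set S) ⊆ E} ≤ κ := by
  classical
  have hinj : Function.Surjective
      (fun l : List E => (⟨(l.map Subtype.val).toFinset, by
        intro x hx
        simp only [List.coe_toFinset, List.mem_map, Subtype.exists, exists_and_right,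
          exists_eq_right, mem_ofPred_eq] at hx
        exact hx.1⟩ : {F : Finset S | (F : Set S) ⊆ E})) := by
    rintro ⟨F, hF⟩
    refine ⟨F.attach.toList.map (fun x => ⟨x.1, hF x.2⟩), ?_⟩
    apply Subtype.ext
    ext x
    simp
  refine (Cardinal.mk_le_of_surjective hinj).trans ?_
  exact (Cardinal.mk_list_le_max E).trans (max_le hκ hE)

lemma card_stp_le (hop : ∀ F, (op F).Countable) (E : Set S) (κ : Cardinal) (hκ : ℵ₀ ≤ κ)
    (hE : #E ≤ κ) : #(stp op E) ≤ κ := by
  refine (Cardinal.mk_union_le _ _).trans ?_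
  have h1 : #(⋃ F ∈ {F : Finset S | (F : Set S) ⊆ E}, op F) ≤ κ := by
    refine (Cardinal.mk_biUnion_le _ _).trans ?_
    have h2 := card_finset_subset_le E κ hκ hE
    have h3 : (⨆ F : {F : Finset S | (F : Set S) ⊆ E}, #(op F.1)) ≤ ℵ₀ :=
      ciSup_le' fun F => Cardinal.le_aleph0_iff_set_countable.2 (hop _)
    calc _ ≤ κ * ℵ₀ := mul_le_mul' h2 h3
      _ ≤ κ * κ := mul_le_mul_right hκ _
      _ = κ := Cardinal.mul_eq_self hκ
  calc #E + _ ≤ κ + κ := add_le_add hE h1
    _ = κ := Cardinal.add_eq_self hκ

/-- iterated closing off -/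
def itr (E : Set S) : ℕ → Set S
  | 0 => E
  | (k + 1) => stp op (itr E k)

lemma card_hull_le (hop : ∀ F, (op F).Countable) (E : Set S) (κ : Cardinal) (hκ : ℵ₀ ≤ κ)
    (hE : #E ≤ κ) : #(hull op E) ≤ κ := by
  let T : ℕ → Set S := itr op E
  have hTs : ∀ k, T (k + 1) = stp op (T k) := fun k => rfl
  have hmono : Monotone T := monotone_nat_of_le_succ fun k => by
    rw [hTs]; exact subset_union_left
  have hcl : IsCl op (⋃ k, T k) := by
    classical
    intro F hF
    have : ∃ k, (F : Set S) ⊆ T k := by
      induction F using Finset.induction_on with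
      | empty => exact ⟨0, by simp⟩
      | insert a F _ ih =>
        obtain ⟨i, hi⟩ := ih (by
          intro x hx
          exact hF (by simp only [Finset.coe_insert]; exact mem_insert_of_mem _ hx))
        obtain ⟨j, hj⟩ := mem_iUnion.1 (hF (show a ∈ ((insert a F : Finset S) : Set S) by simp))
        refine ⟨max i j, ?_⟩
        intro x hx
        rcases Finset.mem_insert.1 hx with rfl | hx
        · exact hmono (le_max_right _ _) hj
        · exact hmono (le_max_left _ _) (hi hx)
    obtain ⟨k, hk⟩ := this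
    refine Subset.trans ?_ (subset_iUnion T (k + 1))
    rw [hTs]
    refine Subset.trans ?_ subset_union_right
    exact subset_biUnion_of_mem (u := fun F => op F) hk
  have hcard : ∀ k : ℕ, #(T k) ≤ κ := by
    intro k
    induction k with
    | zero => exact hE
    | succ k ih => rw [hTs]; exact card_stp_le op hop _ κ hκ ih
  have hsub : hull op E ⊆ ⋃ k, T k := hull_min op (subset_iUnion T 0) hcl
  refine (Cardinal.mk_le_mk_of_subset hsub).trans ?_
  refine (Cardinal.mk_iUnion_le T).trans ?_
  have h3 : (⨆ k : ℕ, #(T k)) ≤ κ := ciSup_le' hcard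
  calc _ ≤ ℵ₀ * κ := mul_le_mul' (by simp) h3
    _ ≤ κ * κ := mul_le_mul' hκ le_rfl
    _ = κ := Cardinal.mul_eq_self hκ

end Hull

end Pool.Agent.Lib_MP_8e7252_gt
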